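import Pool.Agent.H95.CM.Targets
import Pool.Agent.H65.CM4.Targets1
import Pool.Agent.H23.CM4.Defs

/-!
# The fourth moment of the class group `L`-functions of the CM extensions: links of part C to the
parts A and D
-/

set_option autoImplicit false

open NumberField
open scoped nonZeroDivisors

namespace Pool.Agent.H95.CM

open Pool.Agent.H65.CM4
open Pool.Agent.H31.CN (IsLf)
open Pool.Agent.H61.FM (CC pv)

theorem b_BAL (h : ∀ (k : Type) [Field k] [NumberField k] [IsTotallyReal k],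
    Pool.Agent.H65.CM4.T_BAL k) : T_BAL := by
  intro k _ _ _
  obtain ⟨C, hC, h⟩ := h k
  have hC0 : 0 < C := lt_of_lt_of_le one_pos hC
  refine ⟨C * C, by nlinarith, ?_⟩
  intro r hr
  obtain ⟨u, hu⟩ := h r hr
  refine ⟨u, fun v w => ?_⟩
  have h1 := (hu v).2
  have h2 := (hu w).1
  rw [div_le_iff₀ hC0] at h2
  calc r v * |rv v ((u : 𝓞 k) : k)| = |rv v ((u : 𝓞 k) : k)| * r v := mul_comm _ _
    _ ≤ _ := h1
    _ ≤ C * (|rv w ((u : 𝓞 k) : k)| * r w * C) := mul_le_mul_of_nonneg_left h2 hC0.le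
    _ = _ := by ring

theorem b_COV (h : ∀ (k : Type) [Field k] [NumberField k] [IsTotallyReal k],
    Pool.Agent.H65.CM4.T_LOW k) : T_COV := by
  intro k _ _ _
  obtain ⟨c, C, _, hC, h, _⟩ := h k
  exact ⟨C, lt_of_lt_of_le one_pos hC, h⟩

theorem b_MKI (h : ∀ (k : Type) [Field k] [NumberField k] [IsTotallyReal k],
    Pool.Agent.H65.CM4.T_MKI k) : T_MKI := by
  intro k _ _ _
  exact h k

theorem b_MEM (h : ∀ (k : Type) [Field k] [NumberField k] [IsTotallyReal k],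
    Pool.Agent.H65.CM4.T_FLS k) (h' : ∀ (k : Type) [Field k] [NumberField k] [IsTotallyReal k],
    Pool.Agent.H65.CM4.T_IDC k) : T_MEM := by
  intro k _ _ _
  exact ⟨fun I L hI => (h k I L hI).1, (h' k).2.1⟩

theorem lr_eq {k K : Type} [Field k] [NumberField k] [Field K] [NumberField K] [Algebra k K]
    (ψ : CC K) (I : Ideal (𝓞 k)) : Pool.Agent.H23.CM4.lr k ψ I = lm k ψ I := by
  unfold Pool.Agent.H23.CM4.lr lm
  have h : Pool.Agent.H23.CM4.Nr k K I = Nr k K I := by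
    unfold Pool.Agent.H23.CM4.Nr Nr
    rw [dif_pos (finite_relNorm k I)]
  rw [h]

theorem b_TMF (h : T_TMF) : Pool.Agent.H23.CM4.T_TMF := by
  intro k _ _ _
  obtain ⟨b, hb, h⟩ := h k
  refine ⟨b, hb, fun ε hε => ?_⟩
  obtain ⟨κ, h1, h2, δ, h3, C, j, h4, h⟩ := h ε hε
  refine ⟨κ, h1, h2, δ, h3, C, j, h4, ?_⟩
  intro s X A α ι S K _ _ _ F hs hX hA hAX hα hF
  have i1 : ∀ i : {i // i ∈ S}, IsTotallyComplex (K i.1) := fun i => (hF.cm i.1 i.2).cpx
  have i2 : ∀ i : {i // i ∈ S}, Algebra.IsQuadraticExtension k (K i.1) := fun i =>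
    ⟨(hF.cm i.1 i.2).rk⟩
  have key := h s X A α {i // i ∈ S} (fun i => K i.1) S.attach (fun i => F i.1) hs hX hA hAX hα
    ⟨fun i _ => ⟨hF.lo i.1 i.2, hF.hi i.1 i.2, hF.lf i.1 i.2⟩, fun i _ j _ e =>
      Subtype.ext (hF.ne i.1 i.2 j.1 j.2 e)⟩
  refine le_trans (le_of_eq ?_) key
  rw [← Finset.sum_attach]
  refine Finset.sum_congr rfl fun i _ => Finset.sum_congr rfl fun ψ _ => ?_
  simp only [lr_eq]

end Pool.Agent.H95.CM
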