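import Pool.Agent.H95.CM.Targets
import Pool.Agent.H61.CM4.TargetsB

/-!
# The fourth moment of the class group `L`-functions of the CM extensions: link of part C to part B
-/

set_option autoImplicit false

open NumberField
open scoped nonZeroDivisors

namespace Pool.Agent.H95.CM

open Pool.Agent.H65.CM4

open Classical in
theorem b_EZA (h : Pool.Agent.H61.CM4.T_EZA) : T_EZA := by
  intro k _ _ _ M x y hM hy
  obtain ⟨h1, h2, h3, Φ, h4, _, h5, h6⟩ := h k M x y hM hy
  have hF : ∀ u : V2 k, u ∈ Fo k → u ≠ 0 := fun u hu => hu.1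
  refine ⟨?_, ?_⟩
  · intro s hs
    have hU : {s : ℂ | 0 < s.re ∧ s.re < 2} ∈ nhds s := by
      refine IsOpen.mem_nhds ?_ hs
      exact (isOpen_lt continuous_const Complex.continuous_re).inter
        (isOpen_lt Complex.continuous_re continuous_const)
    have : (fun s : ℂ => Ez s M x y) =ᶠ[nhds s] Φ := by
      filter_upwards [hU] with z hz
      exact h5 z (by linarith [hz.1]) hz.2
    exact (this.differentiableAt_iff.mpr (h4 s)).differentiableWithinAt
  · intro s hs hs2
    have hm : (0 : ℝ) < ix M := by exact_mod_cast Nat.pos_of_ne_zero hM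
    have hsum : Summable (fun u : V2 k => if u ∈ M ∧ u ∈ Fo k then
        (qn (fun v => (x v : ℂ)) (fun v => (y v : ℂ)) u / ix M) ^ (-s) else 0) := by
      refine Summable.of_norm_bounded ((h3 s.re hs).mul_left ((ix M : ℝ) ^ s.re)) ?_
      intro u
      by_cases hu : u ∈ M ∧ u ∈ Fo k
      · rw [if_pos hu, if_pos hu, h2 u]
        have hq := h1 u (hF u hu.2)
        have e1 : ((Pool.Agent.H61.CM4.qp x y u : ℝ) : ℂ) / (ix M : ℂ) =
            ((Pool.Agent.H61.CM4.qp x y u / ix M : ℝ) : ℂ) := by push_cast; rfl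
        rw [e1, Complex.norm_cpow_eq_rpow_re_of_pos (div_pos hq hm), Complex.neg_re,
          Real.div_rpow hq.le hm.le, Real.rpow_neg hm.le, div_eq_mul_inv, inv_inv, mul_comm]
      · rw [if_neg hu, if_neg hu]; simp
    exact ⟨_, hsum.hasSum, by rw [h5 s (by linarith) hs2, h6 s hs]⟩

end Pool.Agent.H95.CM
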