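import Pool.Agent.H95.CM.Targets

/-!
# The fourth moment of the class group `L`-functions of the CM extensions: assembly of part C
-/

set_option autoImplicit false

namespace Pool.Agent.H95.CM

open Pool.Agent.H65.CM4

/-- part C: from the twisted second moment over the reduced pairs to the twisted second moment of the
`L`-functions -/
theorem part_C (hTM : T_TM) (hEZA : T_EZA)
    (hBAL : T_BAL) (hHUR : T_HUR) (hCOV : T_COV)
    (hMKI : T_MKI) (hMEM : T_MEM)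
    (hTPE : T_COV → T_BAL → T_MKI → T_TPE)
    (hIXL : T_MEM → T_IXL)
    (hNTP : T_NTP)
    (hNF2 : T_NTP → T_NF2)
    (hVWI : T_HUR → T_VWI)
    (hVWB : T_VWI → T_BAL → T_COV → T_NF2 → T_VWB)
    (hQFX : T_NF2 → T_NTP → T_QFX)
    (hDTW : T_DTW)
    (hCVF : T_DTW → T_NF2 → T_IXL → T_CVF)
    (hRDX : T_VWB → T_QFX → T_TPE → T_CVF → T_NTP → T_IXL → T_RDX)
    (hRSX : T_RDX → T_RSX)
    (hQNV : T_QNV) (hUNI : T_UNI) (hINJ : T_INJ)
    (hCYC : T_CYC)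
    (hLIN : T_CYC → T_MEM → T_LIN)
    (hLSU : T_MEM → T_IXL → T_LSU)
    (hVIG : T_CVF → T_NTP → T_UNI → T_VIG)
    (hTWS : T_VIG → T_UNI → T_TWS)
    (hLF1 : T_EZA → T_TWS → T_LIN → T_LSU → T_INJ → T_MEM → T_IXL → T_QNV → T_CVF → T_LF1)
    (hLF2 : T_LF1 → T_EZA → T_MEM → T_IXL → T_QNV → T_CVF → T_LF2)
    (hPVF : T_LF2 → Pool.Agent.H61.FM.T_PVL → T_MEM → T_UNI → T_PVF)
    (hPVL : Pool.Agent.H61.FM.T_PVL)
    (hINE : T_NTP → T_INE)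
    (hTTO : T_INE → T_TTO)
    (hNRI : T_NRI)
    (hHBD : T_NRI → T_HBD)
    (hGML : Pool.Agent.H61.FM.T_GML)
    (hTMF : T_TM → T_RSX → T_PVF → T_INE → T_TTO → T_HBD → Pool.Agent.H61.FM.T_GML → T_TMF)
    (hEXL : T_EXL) :
    T_TMF ∧ T_EXL ∧ T_HBD ∧ T_NRI := by
  have aTPE := hTPE hCOV hBAL hMKI
  have aIXL := hIXL hMEM
  have aNF2 := hNF2 hNTP
  have aVWI := hVWI hHUR
  have aVWB := hVWB aVWI hBAL hCOV aNF2
  have aQFX := hQFX aNF2 hNTP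
  have aCVF := hCVF hDTW aNF2 aIXL
  have aRSX := hRSX (hRDX aVWB aQFX aTPE aCVF hNTP aIXL)
  have aLIN := hLIN hCYC hMEM
  have aLSU := hLSU hMEM aIXL
  have aVIG := hVIG aCVF hNTP hUNI
  have aTWS := hTWS aVIG hUNI
  have aLF1 := hLF1 hEZA aTWS aLIN aLSU hINJ hMEM aIXL hQNV aCVF
  have aLF2 := hLF2 aLF1 hEZA hMEM aIXL hQNV aCVF
  have aPVF := hPVF aLF2 hPVL hMEM hUNI
  have aINE := hINE hNTP
  have aTTO := hTTO aINE
  have aHBD := hHBD hNRI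
  exact ⟨hTMF hTM aRSX aPVF aINE aTTO aHBD hGML, hEXL, aHBD, hNRI⟩

end Pool.Agent.H95.CM
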