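import Pool.Agent.H65.CM4.Defs
import Pool.Agent.H61.FM.Targets

/-!
# The fourth moment of the class group `L`-functions of the CM extensions: definitions of part C

`K` is a CM quadratic extension of the totally real field `k`.
-/

set_option autoImplicit false

open MeasureTheory Set Filter NumberField
open scoped Real nonZeroDivisors

namespace Pool.Agent.H95.CM

open Pool.Agent.H65.CM4
open Pool.Agent.H31.CN (IsLf)
open Pool.Agent.H61.FM (CC pv)

section General

variable (k : Type) [Field k] [NumberField k] {K : Type} [Field K] [NumberField K] [Algebra k K]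

theorem finite_relNorm (I : Ideal (𝓞 k)) :
    {J : (Ideal (𝓞 K))⁰ | Ideal.relNorm (𝓞 k) (J : Ideal (𝓞 K)) = I}.Finite := by
  have h := Ideal.finite_setOfPred_absNorm_eq (S := 𝓞 K) (Ideal.absNorm I)
  refine (h.preimage (Subtype.val_injective.injOn)).subset ?_
  intro J hJ
  have e : Ideal.relNorm (𝓞 k) (J : Ideal (𝓞 K)) = I := hJ
  change Ideal.absNorm (J : Ideal (𝓞 K)) = Ideal.absNorm I
  rw [← e, Ideal.absNorm_relNorm]

variable (K) in
/-- the ideals of `K` with relative norm `I` -/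
noncomputable def Nr (I : Ideal (𝓞 k)) : Finset (Ideal (𝓞 K))⁰ := (finite_relNorm k (K := K) I).toFinset

theorem mem_Nr {I : Ideal (𝓞 k)} {J : (Ideal (𝓞 K))⁰} :
    J ∈ Nr k K I ↔ Ideal.relNorm (𝓞 k) (J : Ideal (𝓞 K)) = I := by
  unfold Nr
  rw [Set.Finite.mem_toFinset, Set.mem_setOf_eq]

/-- the coefficients of the `L`-function of `ψ` over `k` -/
noncomputable def lm (ψ : CC K) (I : Ideal (𝓞 k)) : ℂ := ∑ J ∈ Nr k K I, pv ψ J

variable (K) in
/-- the index of the units of `k` in the units of `K` -/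
noncomputable def un : ℕ := (Units.map (algebraMap (𝓞 k) (𝓞 K)).toMonoidHom).range.index

variable (K) in
/-- the norm of the relative discriminant -/
noncomputable def Dr : ℝ := |(discr K : ℝ)| / (dk k : ℝ) ^ 2

variable {k}

/-- the combination of `α` and `β` with the coefficients `u` -/
noncomputable def lin (α β : K) (u : V2 k) : K :=
  algebraMap k K (u.1 : k) * α + algebraMap k K (u.2 : k) * β

theorem lin_add (α β : K) (u v : V2 k) : lin α β (u + v) = lin α β u + lin α β v := by
  simp only [lin, Prod.fst_add, Prod.snd_add]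
  push_cast
  ring

theorem lin_smul (α β : K) (c : 𝓞 k) (u : V2 k) :
    lin α β (c • u) = algebraMap k K (c : k) * lin α β u := by
  simp only [lin, Prod.smul_fst, Prod.smul_snd, smul_eq_mul]
  push_cast
  ring

/-- the vectors of the ideal `J` in terms of the numbers `α`, `β` -/
noncomputable def lt (α β : K) (J : Ideal (𝓞 K)) : La k where
  carrier := {u | ∃ x ∈ J, (x : K) = lin α β u}
  zero_mem' := ⟨0, J.zero_mem, by simp [lin]⟩
  add_mem' := by
    rintro u v ⟨x, hx, ex⟩ ⟨y, hy, ey⟩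
    exact ⟨x + y, J.add_mem hx hy, by rw [lin_add, ← ex, ← ey]; push_cast; rfl⟩
  smul_mem' := by
    rintro c u ⟨x, hx, ex⟩
    refine ⟨algebraMap (𝓞 k) (𝓞 K) c * x, J.mul_mem_left _ hx, ?_⟩
    rw [lin_smul, ← ex]
    push_cast
    rfl

end General

section CM

variable (k K : Type) [Field k] [NumberField k] [IsTotallyReal k] [Field K] [NumberField K]
  [IsTotallyComplex K] [Algebra k K] [Algebra.IsQuadraticExtension k K]

variable {K} in
/-- the ideal `I` of `K` is the lattice `M` with the form `μ Q` -/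
structure Ob (b : ℕ) (I : Ideal (𝓞 K)) (α β : K) (μ : k) (M : La k) (Q : QF k) : Prop where
  bM : ∀ u : V2 k, (b : 𝓞 k) • u ∈ M
  lat : M = lt α β I
  mem : ∀ x ∈ I, ∃ u : V2 k, lin α β u = (x : K)
  inj : ∀ u : V2 k, lin α β u = 0 → u = 0
  pos : ∀ v : Pl k, 0 < rv v μ
  nrm : ∀ u : V2 k, Algebra.norm k (lin α β u) = μ * ((val Q u : 𝓞 k) : k)
  cop : (b : 𝓞 k) ∈ Ideal.span {a : 𝓞 k | ∃ u ∈ M, val Q u = a}

/-- representatives of the ideal classes, with their lattices and forms -/
structure RS (b : ℕ) (B y : ℝ) where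
  I : ClassGroup (𝓞 K) → (Ideal (𝓞 K))⁰
  α : ClassGroup (𝓞 K) → K
  β : ClassGroup (𝓞 K) → K
  μ : ClassGroup (𝓞 K) → k
  M : ClassGroup (𝓞 K) → La k
  Q : ClassGroup (𝓞 K) → QF k
  cl : ∀ c, ClassGroup.mk0 (I c) = c
  ob : ∀ c, Ob k b (I c : Ideal (𝓞 K)) (α c) (β c) (μ c) (M c) (Q c)
  rd : ∀ c, Rd b B y (M c) (Q c)

end CM

end Pool.Agent.H95.CM
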