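import Pool.Agent.H95.CM.TDefs

/-!
# The fourth moment of the class group `L`-functions of the CM extensions: targets of part C

From the twisted second moment over the reduced pairs (`Pool.Agent.H65.CM4.T_TM`) to the twisted second
moment of the `L`-functions.
-/

set_option autoImplicit false

open MeasureTheory Set Filter NumberField
open scoped Real nonZeroDivisors

namespace Pool.Agent.H95.CM

open Pool.Agent.H65.CM4
open Pool.Agent.H31.CN (IsLf)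
open Pool.Agent.H61.FM (CC pv)

/-! ### The totally real field -/

/-- (BAL) balancing by units. -/
def T_BAL : Prop :=
  ∀ (k : Type) [Field k] [NumberField k] [IsTotallyReal k], ∃ C : ℝ, 1 ≤ C ∧
    ∀ r : Pl k → ℝ, (∀ v, 0 < r v) → ∃ u : (𝓞 k)ˣ, ∀ v w : Pl k,
      r v * |rv v ((u : 𝓞 k) : k)| ≤ C * (r w * |rv w ((u : 𝓞 k) : k)|)

/-- (HUR) division with a bounded denominator. -/
def T_HUR : Prop :=
  ∀ (k : Type) [Field k] [NumberField k], ∃ b : ℕ, 0 < b ∧ ∀ x : k, ∃ t : ℕ, t ∣ b ∧ ∃ ω : 𝓞 k,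
    |Algebra.norm ℚ ((t : k) * x - (ω : k))| < 1

/-- (COV) the integers of `k` are relatively dense. -/
def T_COV : Prop :=
  ∀ (k : Type) [Field k] [NumberField k] [IsTotallyReal k], ∃ R : ℝ, 0 < R ∧
    ∀ t : Pl k → ℝ, ∃ ω : 𝓞 k, ∀ v, |rv v (ω : k) - t v| ≤ R

/-- (MKI) Minkowski's theorem. -/
def T_MKI : Prop :=
  ∀ (k : Type) [Field k] [NumberField k] [IsTotallyReal k], ∃ C : ℝ, 1 ≤ C ∧
    ∀ m : Ideal (𝓞 k), m ≠ ⊥ → ∃ x ∈ m, x ≠ 0 ∧ ∏ v : Pl k, |rv v (x : k)| ≤ C * nm m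

/-- (TPE) totally positive balanced elements of an ideal. -/
def T_TPE : Prop :=
  ∀ (k : Type) [Field k] [NumberField k] [IsTotallyReal k], ∃ C : ℝ, 1 ≤ C ∧
    ∀ m : Ideal (𝓞 k), m ≠ ⊥ → ∃ ν ∈ m, ∀ v : Pl k,
      nm m ^ (1 / (dg k : ℝ)) ≤ rv v (ν : k) ∧ rv v (ν : k) ≤ C * nm m ^ (1 / (dg k : ℝ))

/-- (MEM) membership in the finite sets. -/
def T_MEM : Prop :=
  ∀ (k : Type) [Field k] [NumberField k] [IsTotallyReal k],
    (∀ (I : Ideal (𝓞 k)) (L : La k), I ≠ ⊥ → (L ∈ Ls I ↔ ∃ u : V2 k, Cop I u ∧ L = Lw I u)) ∧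
    ∀ (b : ℕ) (A : ℝ) (I : Ideal (𝓞 k)), I ∈ Sq b A ↔
      (I ≠ ⊥ ∧ Squarefree I ∧ I ⊔ Ideal.span {(b : 𝓞 k)} = ⊤ ∧ nm I ≤ A)

/-- (IXL) the index of an intersection. -/
def T_IXL : Prop :=
  ∀ (k : Type) [Field k] [NumberField k] [IsTotallyReal k] (b : ℕ) (M : La k) (I : Ideal (𝓞 k)), 0 < b →
    (∀ u : V2 k, (b : 𝓞 k) • u ∈ M) → I ≠ ⊥ → I ⊔ Ideal.span {(b : 𝓞 k)} = ⊤ →
    ix M ≠ 0 ∧ ix M ≤ b ^ (2 * dg k) ∧
    (∀ L ∈ Ls I, ix (M ⊓ L) = ix M * Ideal.absNorm I) ∧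
    ∀ L ∈ Ls I, ∀ L' ∈ Ls I, M ⊓ L = M ⊓ L' → L = L'

/-! ### Norms from `K` to `k` -/

/-- (NTP) norms are totally positive. -/
def T_NTP : Prop :=
  ∀ (k K : Type) [Field k] [NumberField k] [IsTotallyReal k] [Field K] [NumberField K]
    [IsTotallyComplex K] [Algebra k K] [Algebra.IsQuadraticExtension k K],
    (∀ x : K, x ≠ 0 → ∀ v : Pl k, 0 < rv v (Algebra.norm k x)) ∧
    (∀ x : k, ∏ v : Pl k, |rv v x| = |((Algebra.norm ℚ x : ℚ) : ℝ)|) ∧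
    ∀ x : K, |((Algebra.norm ℚ x : ℚ) : ℝ)| = ∏ v : Pl k, rv v (Algebra.norm k x)

/-- (NF2) the norm form. -/
def T_NF2 : Prop :=
  ∀ (k K : Type) [Field k] [NumberField k] [IsTotallyReal k] [Field K] [NumberField K]
    [IsTotallyComplex K] [Algebra k K] [Algebra.IsQuadraticExtension k K] (v w : K),
    (∀ x y : k, algebraMap k K x * v + algebraMap k K y * w = 0 → x = 0 ∧ y = 0) →
    ∃ p q r : k, p = Algebra.norm k v ∧ r = Algebra.norm k w ∧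
      (∀ x y : k, Algebra.norm k (algebraMap k K x * v + algebraMap k K y * w) =
        p * x ^ 2 + q * (x * y) + r * y ^ 2) ∧
      ∀ j : Pl k, 0 < rv j p ∧ 0 < rv j (4 * (p * r) - q ^ 2)

/-- (VWI) two vectors of an ideal, of bounded index. -/
def T_VWI : Prop :=
  ∀ (k : Type) [Field k] [NumberField k] [IsTotallyReal k], ∃ (b : ℕ) (C : ℝ), 0 < b ∧
    ∀ (K : Type) [Field K] [NumberField K] [IsTotallyComplex K] [Algebra k K]
      [Algebra.IsQuadraticExtension k K] (I : Ideal (𝓞 K)), I ≠ ⊥ → ∃ v ∈ I, ∃ w ∈ I,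
      (∀ x y : k, algebraMap k K x * (v : K) + algebraMap k K y * (w : K) = 0 → x = 0 ∧ y = 0) ∧
      (∀ x ∈ I, ∃ u : V2 k, (b : K) * (x : K) = lin (v : K) (w : K) u) ∧
      |((Algebra.norm ℚ (v : K) : ℚ) : ℝ)| ≤ C * (Real.sqrt |(discr K : ℝ)| * nm I)

/-- (VWB) the same, balanced. -/
def T_VWB : Prop :=
  ∀ (k : Type) [Field k] [NumberField k] [IsTotallyReal k], ∃ (b : ℕ) (C : ℝ), 0 < b ∧ 1 ≤ C ∧
    ∀ (K : Type) [Field K] [NumberField K] [IsTotallyComplex K] [Algebra k K]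
      [Algebra.IsQuadraticExtension k K] (I : Ideal (𝓞 K)), I ≠ ⊥ → ∃ v ∈ I, ∃ w ∈ I,
      (∀ x y : k, algebraMap k K x * (v : K) + algebraMap k K y * (w : K) = 0 → x = 0 ∧ y = 0) ∧
      (∀ x ∈ I, ∃ u : V2 k, (b : K) * (x : K) = lin (v : K) (w : K) u) ∧
      |((Algebra.norm ℚ (v : K) : ℚ) : ℝ)| ≤ C * (Real.sqrt |(discr K : ℝ)| * nm I) ∧
      ∀ p q r : k, (∀ x y : k, Algebra.norm k (algebraMap k K x * (v : K) +
          algebraMap k K y * (w : K)) = p * x ^ 2 + q * (x * y) + r * y ^ 2) →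
        ∀ i j : Pl k, rv i p ≤ C * rv j p ∧
          rv i (4 * (p * r) - q ^ 2) ≤ C * rv j (4 * (p * r) - q ^ 2) ∧ |rv i q| ≤ C * rv i p

/-- (QFX) the form of an ideal. -/
def T_QFX : Prop :=
  ∀ (k K : Type) [Field k] [NumberField k] [IsTotallyReal k] [Field K] [NumberField K]
    [IsTotallyComplex K] [Algebra k K] [Algebra.IsQuadraticExtension k K]
    (I : Ideal (𝓞 K)) (v w : 𝓞 K) (b₁ b₂ : ℕ) (ν : 𝓞 k), I ≠ ⊥ → v ∈ I → w ∈ I →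
    (∀ x y : k, algebraMap k K x * (v : K) + algebraMap k K y * (w : K) = 0 → x = 0 ∧ y = 0) →
    0 < b₁ → 0 < b₂ → (∀ x ∈ I, ∃ u : V2 k, (b₁ : K) * (x : K) = lin (v : K) (w : K) u) →
    ν ∈ Ideal.relNorm (𝓞 k) I → (∀ j : Pl k, 0 < rv j (ν : k)) →
    (∀ m : ℕ, m * Ideal.absNorm (Ideal.relNorm (𝓞 k) I) = Ideal.absNorm (Ideal.span {ν}) → m ∣ b₂) →
    ∃ Q : QF k, Ob k (b₁ ^ 2 * b₂) I ((v : K) / b₁) ((w : K) / b₁)
      ((ν : k) / ((b₁ ^ 2 * b₂ : ℕ) : k)) (lt ((v : K) / b₁) ((w : K) / b₁) I) Q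

/-- (DTW) the discriminant of a product basis. -/
def T_DTW : Prop :=
  ∀ (k K : Type) [Field k] [NumberField k] [IsTotallyReal k] [Field K] [NumberField K]
    [IsTotallyComplex K] [Algebra k K] [Algebra.IsQuadraticExtension k K]
    (α β : K) (p q r : k), (∀ x y : k, Algebra.norm k (algebraMap k K x * α +
      algebraMap k K y * β) = p * x ^ 2 + q * (x * y) + r * y ^ 2) →
    |((Algebra.discr ℚ (fun i : Fin 2 × Module.Free.ChooseBasisIndex ℤ (𝓞 k) =>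
        algebraMap k K (integralBasis k i.2) * (if i.1 = 0 then α else β)) : ℚ) : ℝ)| =
      (dk k : ℝ) ^ 2 * ∏ v : Pl k, |rv v (4 * (p * r) - q ^ 2)|

/-- (CVF) the covolume of an ideal. -/
def T_CVF : Prop :=
  ∀ (k K : Type) [Field k] [NumberField k] [IsTotallyReal k] [Field K] [NumberField K]
    [IsTotallyComplex K] [Algebra k K] [Algebra.IsQuadraticExtension k K]
    (b : ℕ) (I : Ideal (𝓞 K)) (α β : K) (μ : k) (M : La k) (Q : QF k), 0 < b → I ≠ ⊥ →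
    Ob k b I α β μ M Q → (∀ v : Pl k, 0 < rv v (Q.1 : k) ∧ 0 < rv v (dsc Q : k)) ∧
      nm I ^ 2 * |(discr K : ℝ)| =
        (ix M : ℝ) ^ 2 * (dk k : ℝ) ^ 2 * (∏ v : Pl k, rv v μ) ^ 2 * ∏ v : Pl k, rv v (dsc Q : k)

/-- (RDX) every ideal has a reduced pair. -/
def T_RDX : Prop :=
  ∀ (k : Type) [Field k] [NumberField k] [IsTotallyReal k], ∃ (b : ℕ) (B : ℝ), 0 < b ∧ 1 ≤ B ∧
    ∀ (K : Type) [Field K] [NumberField K] [IsTotallyComplex K] [Algebra k K]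
      [Algebra.IsQuadraticExtension k K] (I : Ideal (𝓞 K)), I ≠ ⊥ →
      ∃ (α β : K) (μ : k) (M : La k) (Q : QF k), Ob k b I α β μ M Q ∧
        Rd b B (|(discr K : ℝ)| ^ (1 / (2 * dg k : ℝ))) M Q

/-- (RSX) representatives exist. -/
def T_RSX : Prop :=
  ∀ (k : Type) [Field k] [NumberField k] [IsTotallyReal k], ∃ (b : ℕ) (B : ℝ), 0 < b ∧ 1 ≤ B ∧
    ∀ b' : ℕ, 0 < b' → b ∣ b' → ∀ (K : Type) [Field K] [NumberField K] [IsTotallyComplex K]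
      [Algebra k K] [Algebra.IsQuadraticExtension k K] (y : ℝ),
      |(discr K : ℝ)| ^ (1 / (2 * dg k : ℝ)) ≤ y → y ≤ 2 * |(discr K : ℝ)| ^ (1 / (2 * dg k : ℝ)) →
      Nonempty (RS k K b' B y)

/-! ### Ideals and lattices -/

/-- (QNV) the metric of a form. -/
def T_QNV : Prop :=
  ∀ (k : Type) [Field k] [NumberField k] [IsTotallyReal k] (Q : QF k) (u : V2 k),
    (∀ v : Pl k, 0 < rv v (Q.1 : k) ∧ 0 < rv v (dsc Q : k)) →
    (∀ v, 0 < zy Q v) ∧ qn (fun v => (zx Q v : ℂ)) (fun v => (zy Q v : ℂ)) u =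
      ((∏ v : Pl k, rv v (val Q u : k) / Real.sqrt (rv v (dsc Q : k)) : ℝ) : ℂ) ∧
    (∀ v : Pl k, u ≠ 0 → 0 < rv v (val Q u : k))

/-- (UNI) the index of the units. -/
def T_UNI : Prop :=
  ∀ (k K : Type) [Field k] [NumberField k] [IsTotallyReal k] [Field K] [NumberField K]
    [IsTotallyComplex K] [Algebra k K] [Algebra.IsQuadraticExtension k K], 0 < un k K

/-- (INJ) different ideals have different lattices. -/
def T_INJ : Prop :=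
  ∀ (k K : Type) [Field k] [NumberField k] [IsTotallyReal k] [Field K] [NumberField K]
    [IsTotallyComplex K] [Algebra k K] [Algebra.IsQuadraticExtension k K]
    (b : ℕ) (I : Ideal (𝓞 K)) (α β : K) (μ : k) (M : La k) (Q : QF k), 0 < b → I ≠ ⊥ →
    Ob k b I α β μ M Q → ∀ P P' : Ideal (𝓞 K), lt (k := k) α β (P * I) = lt α β (P' * I) → P = P'

/-- (LSU) the lattices on which the form is divisible are ideals. -/
def T_LSU : Prop :=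
  ∀ (k K : Type) [Field k] [NumberField k] [IsTotallyReal k] [Field K] [NumberField K]
    [IsTotallyComplex K] [Algebra k K] [Algebra.IsQuadraticExtension k K]
    (b : ℕ) (I : Ideal (𝓞 K)) (α β : K) (μ : k) (M : La k) (Q : QF k), 0 < b → I ≠ ⊥ →
    Ob k b I α β μ M Q → ∀ n : Ideal (𝓞 k), n ≠ ⊥ → n ⊔ Ideal.span {(b : 𝓞 k)} = ⊤ →
    ∀ L ∈ Ls n, Dv n L Q → ∃ P : Ideal (𝓞 K), P ≠ ⊥ ∧ Ideal.relNorm (𝓞 k) P = n ∧
      lt α β (P * I) = M ⊓ L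

/-- (CYC) the quotient by an ideal of squarefree norm is cyclic. -/
def T_CYC : Prop :=
  ∀ (k K : Type) [Field k] [NumberField k] [IsTotallyReal k] [Field K] [NumberField K]
    [IsTotallyComplex K] [Algebra k K] [Algebra.IsQuadraticExtension k K]
    (P : Ideal (𝓞 K)), P ≠ ⊥ → Squarefree (Ideal.relNorm (𝓞 k) P) →
    (∀ x : 𝓞 K, ∃ a : 𝓞 k, x - algebraMap (𝓞 k) (𝓞 K) a ∈ P) ∧
    ∀ a : 𝓞 k, algebraMap (𝓞 k) (𝓞 K) a ∈ P ↔ a ∈ Ideal.relNorm (𝓞 k) P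

/-- (LIN) the lattice of a multiple of an ideal. -/
def T_LIN : Prop :=
  ∀ (k K : Type) [Field k] [NumberField k] [IsTotallyReal k] [Field K] [NumberField K]
    [IsTotallyComplex K] [Algebra k K] [Algebra.IsQuadraticExtension k K]
    (b : ℕ) (I : Ideal (𝓞 K)) (α β : K) (μ : k) (M : La k) (Q : QF k), 0 < b → I ≠ ⊥ →
    Ob k b I α β μ M Q → ∀ P : Ideal (𝓞 K), P ≠ ⊥ → Squarefree (Ideal.relNorm (𝓞 k) P) →
    Ideal.relNorm (𝓞 k) P ⊔ Ideal.span {(b : 𝓞 k)} = ⊤ →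
    ∃ L ∈ Ls (Ideal.relNorm (𝓞 k) P), Dv (Ideal.relNorm (𝓞 k) P) L Q ∧ lt α β (P * I) = M ⊓ L

/-- (VIG) the vectors of an ideal and the integral ideals of the inverse class. -/
def T_VIG : Prop :=
  ∀ (k K : Type) [Field k] [NumberField k] [IsTotallyReal k] [Field K] [NumberField K]
    [IsTotallyComplex K] [Algebra k K] [Algebra.IsQuadraticExtension k K]
    (b : ℕ) (I : (Ideal (𝓞 K))⁰) (α β : K) (μ : k) (M : La k) (Q : QF k), 0 < b →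
    Ob k b (I : Ideal (𝓞 K)) α β μ M Q → ∃ J : V2 k → (Ideal (𝓞 K))⁰,
      (∀ u ∈ M, u ≠ 0 → ∀ x : 𝓞 K, (x : K) = lin α β u →
        Ideal.span {x} = (J u : Ideal (𝓞 K)) * I) ∧
      (∀ u ∈ M, u ≠ 0 → ClassGroup.mk0 (J u) = (ClassGroup.mk0 I)⁻¹ ∧
        nm (J u : Ideal (𝓞 K)) = Real.sqrt (Dr k K) *
          (∏ v : Pl k, rv v (val Q u : k) / Real.sqrt (rv v (dsc Q : k))) / ix M) ∧
      (∀ J' : (Ideal (𝓞 K))⁰, ClassGroup.mk0 J' = (ClassGroup.mk0 I)⁻¹ →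
        ∃ u ∈ M, u ≠ 0 ∧ J u = J') ∧
      (∀ u ∈ M, u ≠ 0 → {u' : V2 k | u' ∈ M ∧ u' ∈ Fo k ∧ J u' = J u}.ncard = un k K)

open Classical in
/-- (TWS) sums over the vectors of a product of ideals are sums over the ideals of a class. -/
def T_TWS : Prop :=
  ∀ (k K : Type) [Field k] [NumberField k] [IsTotallyReal k] [Field K] [NumberField K]
    [IsTotallyComplex K] [Algebra k K] [Algebra.IsQuadraticExtension k K]
    (b : ℕ) (I P : (Ideal (𝓞 K))⁰) (α β : K) (μ : k) (M : La k) (Q : QF k), 0 < b →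
    Ob k b (I : Ideal (𝓞 K)) α β μ M Q → ∀ (f : ℝ → ℂ) (a : ℂ),
      HasSum (fun u : V2 k => if u ∈ lt α β ((P : Ideal (𝓞 K)) * I) ∧ u ∈ Fo k then
        f (Real.sqrt (Dr k K) * (∏ v : Pl k, rv v (val Q u : k) / Real.sqrt (rv v (dsc Q : k))) /
          (ix M * nm (P : Ideal (𝓞 K)))) else 0) a →
      HasSum (fun J : (Ideal (𝓞 K))⁰ =>
        if ClassGroup.mk0 J = (ClassGroup.mk0 I * ClassGroup.mk0 P)⁻¹ then
          f (nm (J : Ideal (𝓞 K))) else 0) (a / un k K)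

/-! ### The `L`-functions -/

open Classical in
/-- (EZA) what part B provides. -/
def T_EZA : Prop :=
  ∀ (k : Type) [Field k] [NumberField k] [IsTotallyReal k] (M : La k) (x y : Pl k → ℝ),
    ix M ≠ 0 → (∀ v, 0 < y v) →
    DifferentiableOn ℂ (fun s : ℂ => Ez s M x y) {s | 0 < s.re ∧ s.re < 2} ∧
    ∀ s : ℂ, 1 < s.re → s.re < 2 → ∃ a : ℂ, HasSum (fun u : V2 k => if u ∈ M ∧ u ∈ Fo k then
      (qn (fun v => (x v : ℂ)) (fun v => (y v : ℂ)) u / ix M) ^ (-s) else 0) a ∧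
      Ez s M x y = gG s ^ dg k * a

open Classical in
/-- (LF1) the twisted `L`-function in terms of the forms, `Re s > 1`. -/
def T_LF1 : Prop :=
  ∀ (k K : Type) [Field k] [NumberField k] [IsTotallyReal k] [Field K] [NumberField K]
    [IsTotallyComplex K] [Algebra k K] [Algebra.IsQuadraticExtension k K]
    (b : ℕ) (B y : ℝ) (R : RS k K b B y) (ψ : CC K) (F : ℂ → ℂ), 0 < b → IsLf K ψ F →
    ∀ I : Ideal (𝓞 k), I ≠ ⊥ → Squarefree I → I ⊔ Ideal.span {(b : 𝓞 k)} = ⊤ →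
    ∀ s : ℂ, 1 < s.re → s.re < 2 →
      lm k ψ I * (gG s ^ dg k * (Dr k K : ℂ) ^ (s / 2) * F s) =
        (un k K : ℂ)⁻¹ * ∑ c, (((ψ c)⁻¹ : ℂˣ) : ℂ) *
          ∑ L ∈ (Ls I).filter (fun L => Dv I L (R.Q c)), Ez s (R.M c ⊓ L) (zx (R.Q c)) (zy (R.Q c))

open Classical in
/-- (LF2) the twisted `L`-function in terms of the forms. -/
def T_LF2 : Prop :=
  ∀ (k K : Type) [Field k] [NumberField k] [IsTotallyReal k] [Field K] [NumberField K]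
    [IsTotallyComplex K] [Algebra k K] [Algebra.IsQuadraticExtension k K]
    (b : ℕ) (B y : ℝ) (R : RS k K b B y) (ψ : CC K) (F : ℂ → ℂ), 0 < b → IsLf K ψ F →
    ∀ I : Ideal (𝓞 k), I ≠ ⊥ → Squarefree I → I ⊔ Ideal.span {(b : 𝓞 k)} = ⊤ →
    ∀ s : ℂ, 0 < s.re → s.re < 2 → s ≠ 1 →
      lm k ψ I * (gG s ^ dg k * (Dr k K : ℂ) ^ (s / 2) * F s) =
        (un k K : ℂ)⁻¹ * ∑ c, (((ψ c)⁻¹ : ℂˣ) : ℂ) *
          ∑ L ∈ (Ls I).filter (fun L => Dv I L (R.Q c)), Ez s (R.M c ⊓ L) (zx (R.Q c)) (zy (R.Q c))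

/-- (PVF) the twisted second moment for one field. -/
def T_PVF : Prop :=
  ∀ (k K : Type) [Field k] [NumberField k] [IsTotallyReal k] [Field K] [NumberField K]
    [IsTotallyComplex K] [Algebra k K] [Algebra.IsQuadraticExtension k K]
    (b : ℕ) (B y : ℝ) (R : RS k K b B y) (F : CC K → ℂ → ℂ), 0 < b → (∀ ψ, IsLf K ψ (F ψ)) →
    ∀ (s : ℂ) (A : ℝ) (α : Ideal (𝓞 k) → ℂ), |s.re - 1 / 2| ≤ 1 / 8 →
    ∑ ψ : CC K, ‖∑ I ∈ Sq b A, α I * lm k ψ I‖ ^ 2 * ‖F ψ s‖ ^ 2 *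
        ((‖gG s‖ ^ dg k) ^ 2 * Dr k K ^ s.re) ≤
      Fintype.card (ClassGroup (𝓞 K)) * ∑ c, ‖Bf s α b A (R.M c) (R.Q c)‖ ^ 2

/-- (INE) a lattice and a form determine the field. -/
def T_INE : Prop :=
  ∀ (k K K' : Type) [Field k] [NumberField k] [IsTotallyReal k] [Field K] [NumberField K]
    [IsTotallyComplex K] [Algebra k K] [Algebra.IsQuadraticExtension k K] [Field K']
    [NumberField K'] [IsTotallyComplex K'] [Algebra k K'] [Algebra.IsQuadraticExtension k K']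
    (b b' : ℕ) (I : Ideal (𝓞 K)) (I' : Ideal (𝓞 K')) (α β : K) (α' β' : K') (μ μ' : k) (M : La k)
    (Q : QF k), 0 < b → 0 < b' → I ≠ ⊥ → I' ≠ ⊥ → Ob k b I α β μ M Q → Ob k b' I' α' β' μ' M Q →
    ∃ (e : K ≃ₐ[k] K') (t : K'), t ≠ 0 ∧ ∀ u : V2 k, lin α' β' u = t * e (lin α β u)

/-- (TTO) a lattice and a form determine the class up to conjugation. -/
def T_TTO : Prop :=
  ∀ (k K : Type) [Field k] [NumberField k] [IsTotallyReal k] [Field K] [NumberField K]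
    [IsTotallyComplex K] [Algebra k K] [Algebra.IsQuadraticExtension k K]
    (b : ℕ) (B y : ℝ) (R : RS k K b B y) (c : ClassGroup (𝓞 K)), 0 < b →
    {c' | R.M c' = R.M c ∧ R.Q c' = R.Q c}.ncard ≤ 2

/-- (HBD) class numbers. -/
def T_HBD : Prop :=
  ∀ (n : ℕ) (ε : ℝ), 0 < ε → ∃ C : ℝ, 0 < C ∧ ∀ (K : Type) [Field K] [NumberField K],
    Module.finrank ℚ K = n →
    (Fintype.card (ClassGroup (𝓞 K)) : ℝ) ≤ C * |(discr K : ℝ)| ^ (1 / 2 + ε) ∧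
    (Fintype.card (CC K) : ℝ) ≤ C * |(discr K : ℝ)| ^ (1 / 2 + ε)

/-- (EXL) the `L`-functions exist. -/
def T_EXL : Prop :=
  ∀ (K : Type) [Field K] [NumberField K] [IsTotallyComplex K] (ψ : CC K), ∃ F : ℂ → ℂ, IsLf K ψ F

/-- (NRI) the number of the ideals of a given norm. -/
def T_NRI : Prop :=
  ∀ (n : ℕ) (ε : ℝ), 0 < ε → ∃ C : ℝ, 0 < C ∧ ∀ (K : Type) [Field K] [NumberField K],
    Module.finrank ℚ K = n → ∀ m : ℕ, 1 ≤ m →
    ({J : Ideal (𝓞 K) | Ideal.absNorm J = m}.ncard : ℝ) ≤ C * (m : ℝ) ^ ε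

/-- the condition on a finite family of non-isomorphic CM quadratic extensions of `k` and their
`L`-functions, with discriminants in `[a, b]` -/
def Fml (k : Type) [Field k] [NumberField k] {ι : Type} (K : ι → Type) [∀ i, Field (K i)]
    [∀ i, NumberField (K i)] [∀ i, Algebra k (K i)] (S : Finset ι)
    (F : ∀ i, CC (K i) → ℂ → ℂ) (a b : ℝ) : Prop :=
  (∀ i ∈ S, a ≤ |(discr (K i) : ℝ)| ∧ |(discr (K i) : ℝ)| ≤ b ∧ ∀ ψ, IsLf (K i) ψ (F i ψ)) ∧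
    ∀ i ∈ S, ∀ j ∈ S, Nonempty (K i ≃ₐ[k] K j) → i = j

/-- (TMF) the twisted second moment of the `L`-functions. -/
def T_TMF : Prop :=
  ∀ (k : Type) [Field k] [NumberField k] [IsTotallyReal k], ∃ b : ℕ, 0 < b ∧
    ∀ ε : ℝ, 0 < ε → ∃ κ : ℝ, 0 < κ ∧ κ ≤ 1 / 8 ∧ ∃ δ : ℝ, 0 < δ ∧ ∃ (C : ℝ) (j : ℕ), 0 < C ∧
    ∀ (s : ℂ) (X A : ℝ) (α : Ideal (𝓞 k) → ℂ) (ι : Type) (K : ι → Type) [∀ i, Field (K i)]
      [∀ i, NumberField (K i)] [∀ i, IsTotallyComplex (K i)] [∀ i, Algebra k (K i)]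
      [∀ i, Algebra.IsQuadraticExtension k (K i)] (S : Finset ι) (F : ∀ i, CC (K i) → ℂ → ℂ),
      |s.re - 1 / 2| ≤ κ → 1 ≤ X → 1 ≤ A → A ≤ X ^ ((1 + δ) / 2) → (∀ I, ‖α I‖ ≤ 1) →
      Fml k K S F (X / 4) X →
      ∑ i ∈ S, ∑ ψ : CC (K i), ‖∑ I ∈ Sq b A, α I * lm k ψ I‖ ^ 2 * ‖F i ψ s‖ ^ 2 ≤
        C * (1 + |s.im|) ^ j * X ^ (3 / 2 + ε) * A

end Pool.Agent.H95.CM
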